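import Pool.Agent.W_c2305b_h77.FatDefs
import Pool.Agent.W_c2305b_h68.Tri

/-!
# MP_c2305b_co, FAT (D2): the area of a cap between two supporting lines
-/

open MeasureTheory Set Module

namespace C2305bFat

open W82
open C2305b.TL (cr)

/-- (D2) the cap. -/
theorem cap_area {K C : Set V} {T σ δ : ℝ} {S : Finset V} {p q : V} {ap aq bp bq : ℝ}
    (h : CellH K T σ δ C S) (hA : Arc C p q δ ap aq bp bq) (hδ : δ ≤ 1 / 4) (hσ : 0 < σ) :
    0 ≤ ap + aq ∧ (volume (cap C p q)).toReal ≤ (1 + 2 * σ) ^ 2 / 2 * (ap + aq) := by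
  have hp0 := abs_le.mp hA.p0
  have hq0 := abs_le.mp hA.q0
  have hpK := abs_le.mp (h.nf.bx0 p (h.sub hA.pC))
  have hqK := abs_le.mp (h.nf.bx0 q (h.sub hA.qC))
  have hL : 0 < q 0 - p 0 := by linarith
  have hL2 : q 0 - p 0 ≤ 2 * (1 + 2 * σ) := by linarith
  have h1 := hA.lp q hA.qC
  have h2 := hA.lq p hA.pC
  obtain ⟨L, hLe⟩ : ∃ L, L = q 0 - p 0 := ⟨_, rfl⟩
  rw [← hLe] at hL hL2 h1
  obtain ⟨m, hm⟩ : ∃ m, m = (q 1 - p 1) / L := ⟨_, rfl⟩
  have hmL : m * L = q 1 - p 1 := by rw [hm]; field_simp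
  have hs1 : 0 ≤ m + ap := by
    by_contra hc
    push Not at hc
    have := mul_neg_of_neg_of_pos hc hL
    nlinarith
  have hs2 : 0 ≤ aq - m := by
    by_contra hc
    push Not at hc
    have h3 := mul_neg_of_neg_of_pos hc hL
    have h4 : aq * (p 0 - q 0) = -(aq * L) := by rw [hLe]; ring
    linarith
  have hsum : 0 ≤ ap + aq := by linarith
  refine ⟨hsum, ?_⟩
  have hcap : ∀ z ∈ cap C p q, 0 < m * (z 0 - p 0) - (z 1 - p 1) := by
    rintro z ⟨-, hz⟩
    have e : cr (q - p) (z - p) = L * ((z 1 - p 1) - m * (z 0 - p 0)) := by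
      simp only [cr, PiLp.sub_apply]
      rw [← hLe]
      linear_combination (- (z 0 - p 0)) * hmL.symm
    rw [e] at hz
    by_contra hc
    push Not at hc
    have := mul_nonneg hL.le (show 0 ≤ (z 1 - p 1) - m * (z 0 - p 0) by linarith)
    linarith
  rcases hs1.eq_or_lt with h0 | hs1'
  · have : cap C p q = ∅ := by
      refine Set.eq_empty_of_forall_notMem fun z hz => ?_
      have h3 := hcap z hz
      have h4 := hA.lp z hz.1
      have h5 : ap = -m := by linarith
      rw [h5] at h4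
      linarith
    rw [this]
    simp only [measure_empty, ENNReal.toReal_zero]
    positivity
  rcases hs2.eq_or_lt with h0 | hs2'
  · have : cap C p q = ∅ := by
      refine Set.eq_empty_of_forall_notMem fun z hz => ?_
      have h3 := hcap z hz
      have h4 := hA.lq z hz.1
      have h5 : aq = m := by linarith
      rw [h5] at h4
      have h6 : m * (q 0 - p 0) = q 1 - p 1 := by rw [← hLe]; exact hmL
      linarith
    rw [this]
    simp only [measure_empty, ENNReal.toReal_zero]
    positivity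
  obtain ⟨s1, hs1e⟩ : ∃ s, s = m + ap := ⟨_, rfl⟩
  obtain ⟨s2, hs2e⟩ : ∃ s, s = aq - m := ⟨_, rfl⟩
  rw [← hs1e] at hs1'
  rw [← hs2e] at hs2'
  have hs : 0 < s1 + s2 := by positivity
  obtain ⟨t, ht⟩ : ∃ t, t = s2 * L / (s1 + s2) := ⟨_, rfl⟩
  have htm : t * (s1 + s2) = s2 * L := by rw [ht]; field_simp
  have ht0 : 0 < t := by rw [ht]; positivity
  have htL : 0 < L - t := by
    have : (L - t) * (s1 + s2) = s1 * L := by linear_combination -htm
    have h6 : 0 < (L - t) * (s1 + s2) := by rw [this]; positivity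
    exact (pos_iff_pos_of_mul_pos h6).mpr hs
  let r : V := !₂[p 0 + t, p 1 - ap * t]
  have r0 : r 0 = p 0 + t := by simp [r]
  have r1 : r 1 = p 1 - ap * t := by simp [r]
  have r1' : r 1 = q 1 - aq * (L - t) := by
    rw [r1]
    have : s2 + m = aq := by rw [hs2e]; ring
    have e2 : s1 + s2 = ap + aq := by rw [hs1e, hs2e]; ring
    rw [e2] at htm
    linear_combination hmL - htm - L * this
  have horient : cr (r - p) (q - p) = L * t * s1 := by
    simp only [cr, PiLp.sub_apply, r0, r1, hs1e, ← hLe]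
    linear_combination (-t) * hmL
  have hpos : 0 < cr (r - p) (q - p) := by rw [horient]; positivity
  have hsub : cap C p q ⊆ convexHull ℝ {p, r, q} := by
    intro z hz
    rw [C2305bH68.Tri.mem_tri_iff hpos]
    refine ⟨?_, ?_, ?_⟩
    · have : cr (r - p) (z - p) = t * (z 1 - (p 1 - ap * (z 0 - p 0))) := by
        simp only [cr, PiLp.sub_apply, r0, r1]; ring
      rw [this]
      have := hA.lp z hz.1
      exact mul_nonneg ht0.le (by linarith)
    · have : cr (q - r) (z - r) = (L - t) * (z 1 - (q 1 + aq * (z 0 - q 0))) := by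
        simp only [cr, PiLp.sub_apply, r0, r1']
        have : q 0 = L + p 0 := by rw [hLe]; ring
        rw [this]; ring
      rw [this]
      have := hA.lq z hz.1
      exact mul_nonneg htL.le (by linarith)
    · have hz2 := hz.2
      have : cr (p - q) (z - q) = -cr (q - p) (z - p) := by
        simp only [cr, PiLp.sub_apply]; ring
      rw [this]
      linarith
  have hvol := C2305bH68.Tri.volume_tri hpos
  have hle : (volume (cap C p q)).toReal ≤ L * t * s1 / 2 := by
    have h7 := measure_mono (μ := volume) hsub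
    rw [hvol, horient] at h7
    refine ENNReal.toReal_le_of_le_ofReal (by positivity) h7
  refine hle.trans ?_
  have e2 : ap + aq = s1 + s2 := by rw [hs1e, hs2e]; ring
  rw [e2]
  have h8 : t * (s1 + s2) * s1 = s2 * L * s1 := by rw [htm]
  -- L t s1 (s1+s2) = L² s1 s2
  have h9 : (L * t * s1 / 2) * (s1 + s2) ≤ (1 + 2 * σ) ^ 2 / 2 * (s1 + s2) * (s1 + s2) := by
    have e3 : (L * t * s1 / 2) * (s1 + s2) = L ^ 2 * (s1 * s2) / 2 := by
      linear_combination (L / 2) * h8
    rw [e3]
    have hL3 : L ^ 2 ≤ 4 * (1 + 2 * σ) ^ 2 := by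
      have := mul_self_le_mul_self hL.le hL2
      nlinarith
    have h10 : 4 * (s1 * s2) ≤ (s1 + s2) ^ 2 := by nlinarith [sq_nonneg (s1 - s2)]
    have h11 : 0 ≤ s1 * s2 := by positivity
    calc L ^ 2 * (s1 * s2) / 2 ≤ 4 * (1 + 2 * σ) ^ 2 * (s1 * s2) / 2 := by gcongr
      _ = (1 + 2 * σ) ^ 2 * (4 * (s1 * s2)) / 2 := by ring
      _ ≤ (1 + 2 * σ) ^ 2 * (s1 + s2) ^ 2 / 2 := by gcongr
      _ = _ := by ring
  exact le_of_mul_le_mul_right h9 hs

end C2305bFat
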